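import Pool.Agent.Run7.h919.XK.Gen
import Pool.Agent.Run7.h135.XK.Stm

/-!
# Project XK: a point over `K` makes the cocycle locally trivial (piece LTA)
-/

set_option autoImplicit false

open WeierstrassCurve

namespace Pool.Agent.Run7.h374.XK

open Pool.Agent.TH841.SH.D (Pt act Gal Coch IsCoc IsCob LocTriv cob)
open Pool.Agent.TH841.SH (IsR IsX gf isX_zero isX_some not_isX)
open Pool.Agent.TH841.NF (act_some')
open Run7.h135.XK
open Run7.h919.XK (base alg_ne pt_ext2 pt_add2 act_two tp_eq tp_two tp_isX tp_not_isX Cc_two Cc_isX0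
  Cc_isX1 act_isX)

section field

variable {L : Type} [Field L] {W : WeierstrassCurve L} {a b c : L}

/-- the sum of two of the functions `gf` -/
lemma gf_add (_ : IsR W a b c) (h2 : (2 : L) ≠ 0) {u v : L} (hn : W.toAffine.Nonsingular u v)
    (hv : v ≠ 0) :
    gf W a b c (.some u v hn) + gf W b a c (.some u v hn) = (u - a) * (u - b) / v := by
  show ((u - a) ^ 2 - (a - b) * (a - c)) / (2 * v) + ((u - b) ^ 2 - (b - a) * (b - c)) / (2 * v) = _
  field_simp
  ring

/-- a point is determined by the three functions `gf` -/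
lemma gf_det (h : IsR W a b c) (h2 : (2 : L) ≠ 0) {u v : L} (hn : W.toAffine.Nonsingular u v)
    (hv : v ≠ 0) :
    u = a + (gf W a b c (.some u v hn) + gf W b a c (.some u v hn)) *
      (gf W a b c (.some u v hn) + gf W c a b (.some u v hn)) ∧
    v = (gf W a b c (.some u v hn) + gf W b a c (.some u v hn)) *
      (gf W a b c (.some u v hn) + gf W c a b (.some u v hn)) *
      (gf W b a c (.some u v hn) + gf W c a b (.some u v hn)) := by
  have he := (h.eqn u v).1 hn.1
  have h01 := gf_add h h2 hn hv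
  have h02 : gf W a b c (.some u v hn) + gf W c a b (.some u v hn) = (u - a) * (u - c) / v := by
    show ((u - a) ^ 2 - (a - b) * (a - c)) / (2 * v) +
      ((u - c) ^ 2 - (c - a) * (c - b)) / (2 * v) = _
    field_simp
    ring
  have h12 : gf W b a c (.some u v hn) + gf W c a b (.some u v hn) = (u - b) * (u - c) / v := by
    show ((u - b) ^ 2 - (b - a) * (b - c)) / (2 * v) +
      ((u - c) ^ 2 - (c - a) * (c - b)) / (2 * v) = _
    field_simp
    ring
  rw [h01, h02, h12]
  constructor
  · field_simp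
    linear_combination (u - a) * he
  · field_simp
    linear_combination (v ^ 2 + (u - a) * (u - b) * (u - c)) * he

/-- the half of a point whose three coordinates are squares -/
lemma half_pt (h : IsR W a b c) (h2 : (2 : L) ≠ 0) (hab : a ≠ b) (hac : a ≠ c) (hbc : b ≠ c)
    {x A B C : L} (hA : x - a = A ^ 2) (hB : x - b = B ^ 2) (hC : x - c = C ^ 2) :
    ∃ (X Y : L) (hn : W.toAffine.Nonsingular X Y), Y ≠ 0 ∧
      gf W a b c (.some X Y hn) = A ∧ gf W b a c (.some X Y hn) = B ∧
      gf W c a b (.some X Y hn) = C := by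
  have hst : A + B ≠ 0 := by
    intro h0
    apply hab
    have : B = -A := by linear_combination h0
    rw [this] at hB
    linear_combination hB - hA
  have hsw : A + C ≠ 0 := by
    intro h0
    apply hac
    have : C = -A := by linear_combination h0
    rw [this] at hC
    linear_combination hC - hA
  have htw : B + C ≠ 0 := by
    intro h0
    apply hbc
    have : C = -B := by linear_combination h0
    rw [this] at hC
    linear_combination hC - hB
  have ea : a = x - A ^ 2 := by linear_combination -hA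
  have eb : b = x - B ^ 2 := by linear_combination -hB
  have ec : c = x - C ^ 2 := by linear_combination -hC
  have hn : W.toAffine.Nonsingular (x + (A * B + A * C + B * C)) ((A + B) * (A + C) * (B + C)) := by
    apply h.nons h2 hab hac hbc
    rw [ea, eb, ec]
    ring
  have hY : (A + B) * (A + C) * (B + C) ≠ 0 := mul_ne_zero (mul_ne_zero hst hsw) htw
  refine ⟨_, _, hn, hY, ?_, ?_, ?_⟩
  · show ((x + (A * B + A * C + B * C) - a) ^ 2 - (a - b) * (a - c)) /
      (2 * ((A + B) * (A + C) * (B + C))) = A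
    rw [div_eq_iff (mul_ne_zero h2 hY), ea, eb, ec]
    ring
  · show ((x + (A * B + A * C + B * C) - b) ^ 2 - (b - a) * (b - c)) /
      (2 * ((A + B) * (A + C) * (B + C))) = B
    rw [div_eq_iff (mul_ne_zero h2 hY), ea, eb, ec]
    ring
  · show ((x + (A * B + A * C + B * C) - c) ^ 2 - (c - a) * (c - b)) /
      (2 * ((A + B) * (A + C) * (B + C))) = C
    rw [div_eq_iff (mul_ne_zero h2 hY), ea, eb, ec]
    ring

end field

variable {k : Type} [Field k]

lemma Cc_isX2 {W : WeierstrassCurve k} [CharZero k] {e0 e1 e2 : k} (h : IsR W e0 e1 e2)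
    (h01 : e0 ≠ e1) (h02 : e0 ≠ e2) (h12 : e1 ≠ e2) (a b : k) (σ : Gal k) :
    IsX (W.baseChange (AlgebraicClosure k)) (algebraMap k _ e2) (Cc W e0 e1 a b σ) ↔
      (Fl a σ ↔ Fl b σ) := by
  have t0 := tp_two h h01 h02 h12 (AlgebraicClosure k)
  have t1 := tp_two h.swap h01.symm h12 h02 (AlgebraicClosure k)
  have x0 := tp_not_isX h h01 h02 h12 (AlgebraicClosure k) e2 h02
  have x1 := tp_not_isX h.swap h01.symm h12 h02 (AlgebraicClosure k) e2 h12
  have z : IsX (W.baseChange (AlgebraicClosure k)) (algebraMap k _ e2) (0 : Pt W (AlgebraicClosure k)) :=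
    isX_zero _
  have zz : (0 : Pt W (AlgebraicClosure k)) + 0 = 0 := add_zero _
  unfold Cc
  by_cases ha : Fl a σ <;> by_cases hb : Fl b σ <;> simp only [ha, hb, if_true, if_false]
  · rw [pt_add2 h.rot.rot h02.symm h12.symm h01 t1 t0]
    tauto
  · rw [pt_add2 h.rot.rot h02.symm h12.symm h01 t1 zz]
    tauto
  · rw [pt_add2 h.rot.rot h02.symm h12.symm h01 zz t0]
    tauto
  · rw [pt_add2 h.rot.rot h02.symm h12.symm h01 zz zz]
    tauto

/-- the functions `gf` and the action -/
lemma act_gf {W : WeierstrassCurve k} {a b c : k} {L : Type} [Field L] [Algebra k L]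
    (φ : L →ₐ[k] L) {x y : L} (hn : (W.baseChange L).toAffine.Nonsingular x y)
    (hn' : (W.baseChange L).toAffine.Nonsingular (φ x) (φ y)) :
    gf (W.baseChange L) (algebraMap k L a) (algebraMap k L b) (algebraMap k L c)
      (.some (φ x) (φ y) hn') =
    φ (gf (W.baseChange L) (algebraMap k L a) (algebraMap k L b) (algebraMap k L c)
      (.some x y hn)) := by
  show ((φ x - algebraMap k L a) ^ 2 - (algebraMap k L a - algebraMap k L b) *
      (algebraMap k L a - algebraMap k L c)) / (2 * φ y) =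
    φ (((x - algebraMap k L a) ^ 2 - (algebraMap k L a - algebraMap k L b) *
      (algebraMap k L a - algebraMap k L c)) / (2 * y))
  simp only [map_div₀, map_sub, map_pow, map_mul, map_ofNat, AlgHom.commutes]

/-- if the functions `gf` change sign as the pairings with `T`, then the point is moved by `T` -/
lemma move {W : WeierstrassCurve k} {e0 e1 e2 : k} (h : IsR W e0 e1 e2)
    (h01 : e0 ≠ e1) (h02 : e0 ≠ e2) (h12 : e1 ≠ e2) {L : Type} [Field L] [CharZero L] [Algebra k L]
    (φ : L →ₐ[k] L) {X Y : L} (hn : (W.baseChange L).toAffine.Nonsingular X Y) (hY : Y ≠ 0)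
    {T : Pt W L} (hT : T + T = 0)
    (c0 : (IsX (W.baseChange L) (algebraMap k L e0) T →
        φ (gf (W.baseChange L) (algebraMap k L e0) (algebraMap k L e1) (algebraMap k L e2)
          (.some X Y hn)) =
        gf (W.baseChange L) (algebraMap k L e0) (algebraMap k L e1) (algebraMap k L e2)
          (.some X Y hn)) ∧ (¬ IsX (W.baseChange L) (algebraMap k L e0) T →
        φ (gf (W.baseChange L) (algebraMap k L e0) (algebraMap k L e1) (algebraMap k L e2)
          (.some X Y hn)) =
        - gf (W.baseChange L) (algebraMap k L e0) (algebraMap k L e1) (algebraMap k L e2)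
          (.some X Y hn)))
    (c1 : (IsX (W.baseChange L) (algebraMap k L e1) T →
        φ (gf (W.baseChange L) (algebraMap k L e1) (algebraMap k L e0) (algebraMap k L e2)
          (.some X Y hn)) =
        gf (W.baseChange L) (algebraMap k L e1) (algebraMap k L e0) (algebraMap k L e2)
          (.some X Y hn)) ∧ (¬ IsX (W.baseChange L) (algebraMap k L e1) T →
        φ (gf (W.baseChange L) (algebraMap k L e1) (algebraMap k L e0) (algebraMap k L e2)
          (.some X Y hn)) =
        - gf (W.baseChange L) (algebraMap k L e1) (algebraMap k L e0) (algebraMap k L e2)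
          (.some X Y hn)))
    (c2 : (IsX (W.baseChange L) (algebraMap k L e2) T →
        φ (gf (W.baseChange L) (algebraMap k L e2) (algebraMap k L e0) (algebraMap k L e1)
          (.some X Y hn)) =
        gf (W.baseChange L) (algebraMap k L e2) (algebraMap k L e0) (algebraMap k L e1)
          (.some X Y hn)) ∧ (¬ IsX (W.baseChange L) (algebraMap k L e2) T →
        φ (gf (W.baseChange L) (algebraMap k L e2) (algebraMap k L e0) (algebraMap k L e1)
          (.some X Y hn)) =
        - gf (W.baseChange L) (algebraMap k L e2) (algebraMap k L e0) (algebraMap k L e1)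
          (.some X Y hn))) :
    ∀ P : Pt W L, P = (Affine.Point.some X Y hn : Pt W L) → act W φ P = P + T := by
  intro P hP
  let _ : DecidableEq L := Classical.decEq L
  have hb := base h L
  have h2 : (2 : L) ≠ 0 := two_ne_zero
  have n01 : algebraMap k L e0 ≠ algebraMap k L e1 := alg_ne h01
  have n02 : algebraMap k L e0 ≠ algebraMap k L e2 := alg_ne h02
  have n12 : algebraMap k L e1 ≠ algebraMap k L e2 := alg_ne h12
  obtain ⟨u, v, hn1, q1, hv, r1, s1⟩ := hb.sign h2 n01 n02 n12 hn hY hT
  obtain ⟨u', v', hn2, q2, hv', r2, s2⟩ := hb.swap.sign h2 n01.symm n12 n02 hn hY hT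
  obtain ⟨u'', v'', hn3, q3, hv'', r3, s3⟩ := hb.rot.rot.sign h2 n02.symm n12.symm n01 hn hY hT
  rw [q1, Affine.Point.some.injEq] at q2 q3
  obtain ⟨rfl, rfl⟩ := q2
  obtain ⟨rfl, rfl⟩ := q3
  have hn' : (W.baseChange L).toAffine.Nonsingular (φ X) (φ Y) :=
    (Affine.baseChange_nonsingular W (f := φ) φ.injective _ _).mpr hn
  have hφY : φ Y ≠ 0 := (map_ne_zero φ).2 hY
  have g0 : gf (W.baseChange L) (algebraMap k L e0) (algebraMap k L e1) (algebraMap k L e2)
      (.some (φ X) (φ Y) hn') = gf (W.baseChange L) (algebraMap k L e0) (algebraMap k L e1)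
        (algebraMap k L e2) (.some u v hn1) := by
    rw [act_gf φ hn hn']
    by_cases hX : IsX (W.baseChange L) (algebraMap k L e0) T
    · rw [c0.1 hX, r1 hX]
    · rw [c0.2 hX, s1 hX]
  have g1 : gf (W.baseChange L) (algebraMap k L e1) (algebraMap k L e0) (algebraMap k L e2)
      (.some (φ X) (φ Y) hn') = gf (W.baseChange L) (algebraMap k L e1) (algebraMap k L e0)
        (algebraMap k L e2) (.some u v hn1) := by
    rw [act_gf φ hn hn']
    by_cases hX : IsX (W.baseChange L) (algebraMap k L e1) T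
    · rw [c1.1 hX, r2 hX]
    · rw [c1.2 hX, s2 hX]
  have g2 : gf (W.baseChange L) (algebraMap k L e2) (algebraMap k L e0) (algebraMap k L e1)
      (.some (φ X) (φ Y) hn') = gf (W.baseChange L) (algebraMap k L e2) (algebraMap k L e0)
        (algebraMap k L e1) (.some u v hn1) := by
    rw [act_gf φ hn hn']
    by_cases hX : IsX (W.baseChange L) (algebraMap k L e2) T
    · rw [c2.1 hX, r3 hX]
    · rw [c2.2 hX, s3 hX]
  obtain ⟨d1, d2⟩ := gf_det hb h2 hn' hφY
  obtain ⟨d3, d4⟩ := gf_det hb h2 hn1 hv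
  rw [g0, g1, g2, ← d3] at d1
  rw [g0, g1, g2, ← d4] at d2
  have e1 : act W φ P = (Affine.Point.some (φ X) (φ Y) hn' : Pt W L) := by
    rw [hP]
    rfl
  have e2 : (Affine.Point.some (φ X) (φ Y) hn' : Pt W L) = (Affine.Point.some u v hn1 : Pt W L) := by
    show (Affine.Point.some (φ X) (φ Y) hn' : (W.baseChange L).toAffine.Point) = .some u v hn1
    rw [Affine.Point.some.injEq]
    exact ⟨d1, d2⟩
  rw [e1, e2, hP]
  exact q1.symm

lemma Fl_iff {a : k} {s : AlgebraicClosure k} (hs : s ^ 2 = algebraMap k (AlgebraicClosure k) a)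
    (σ : Gal k) : Fl a σ ↔ σ s ≠ s := by
  constructor
  · rintro ⟨t, ht, h⟩ h'
    rcases sq_eq_sq_iff_eq_or_eq_neg.1 (ht.trans hs.symm) with e | e
    · rw [e] at h; exact h h'
    · rw [e, map_neg, h'] at h; exact h rfl
  · intro h
    exact ⟨s, hs, h⟩

lemma sgn {a : k} {s : AlgebraicClosure k} (hs : s ^ 2 = algebraMap k (AlgebraicClosure k) a)
    (σ : Gal k) : (¬ Fl a σ → σ s = s) ∧ (Fl a σ → σ s = - s) := by
  rw [Fl_iff hs]
  refine ⟨fun h => not_not.1 h, fun h => ?_⟩
  have h1 : (σ s) ^ 2 = s ^ 2 := by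
    rw [← map_pow, hs, AlgEquiv.commutes]
  rcases sq_eq_sq_iff_eq_or_eq_neg.1 h1 with e | e
  · exact absurd e h
  · exact e

/-- **LTA** -/
theorem t_LTA : S_LTA := by
  intro k _ _ W e0 e1 e2 h h01 h02 h12 a b ha hb K _ _ hIm ι
  have _ : CharZero K := charZero_of_injective_algebraMap (algebraMap k K).injective
  obtain ⟨s, hs⟩ := IsAlgClosed.exists_pow_nat_eq (algebraMap k (AlgebraicClosure k) a) (n := 2)
    (by norm_num)
  obtain ⟨t, ht⟩ := IsAlgClosed.exists_pow_nat_eq (algebraMap k (AlgebraicClosure k) b) (n := 2)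
    (by norm_num)
  set Ω := AlgebraicClosure K with hΩ
  have htow : ∀ z : k, algebraMap k Ω z = algebraMap K Ω (algebraMap k K z) := fun z =>
    IsScalarTower.algebraMap_apply k K Ω z
  have his : (ι s) ^ 2 = algebraMap K Ω (algebraMap k K a) := by
    rw [← map_pow, hs, ι.commutes, htow]
  have hit : (ι t) ^ 2 = algebraMap K Ω (algebraMap k K b) := by
    rw [← map_pow, ht, ι.commutes, htow]
  rcases hIm with ⟨⟨p, hp⟩, ⟨q, hq⟩⟩ | ⟨x, u, v, w, hu, hv, hw⟩
  · refine ⟨0, fun τ σ hσ => ?_⟩
    rw [map_zero, sub_zero]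
    have fa : ¬ Fl a σ := by
      rw [Fl_iff hs, not_not]
      apply ι.injective
      show ι (σ s) = ι s
      rw [← hσ]
      have h1 : (ι s) ^ 2 = (algebraMap K Ω p) ^ 2 := by
        rw [his, hp, map_mul]; ring
      rcases sq_eq_sq_iff_eq_or_eq_neg.1 h1 with e | e
      · rw [e, τ.commutes]
      · rw [e, map_neg, τ.commutes]
    have fb : ¬ Fl b σ := by
      rw [Fl_iff ht, not_not]
      apply ι.injective
      show ι (σ t) = ι t
      rw [← hσ]
      have h1 : (ι t) ^ 2 = (algebraMap K Ω q) ^ 2 := by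
        rw [hit, hq, map_mul]; ring
      rcases sq_eq_sq_iff_eq_or_eq_neg.1 h1 with e | e
      · rw [e, τ.commutes]
      · rw [e, map_neg, τ.commutes]
    have hC : Cc W e0 e1 a b σ = 0 := by
      unfold Cc
      rw [if_neg fa, if_neg fb, add_zero]
    rw [hC, map_zero]
  · have hA : algebraMap K Ω x - algebraMap k Ω e0 = (ι s * algebraMap K Ω u) ^ 2 := by
      rw [mul_pow, his, htow, ← map_sub, hu, map_mul, map_pow]
    have hB : algebraMap K Ω x - algebraMap k Ω e1 = (ι t * algebraMap K Ω v) ^ 2 := by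
      rw [mul_pow, hit, htow, ← map_sub, hv, map_mul, map_pow]
    have hC : algebraMap K Ω x - algebraMap k Ω e2 = (ι s * ι t * algebraMap K Ω w) ^ 2 := by
      rw [mul_pow, mul_pow, his, hit, htow, ← map_sub, hw, map_mul, map_mul, map_pow]
    obtain ⟨X, Y, hn, hY, g0, g1, g2⟩ := half_pt (base h Ω) two_ne_zero (alg_ne h01) (alg_ne h02)
      (alg_ne h12) hA hB hC
    obtain ⟨P, hP⟩ : ∃ P : Pt W Ω, P = (Affine.Point.some X Y hn : Pt W Ω) := ⟨_, rfl⟩
    refine ⟨P, fun τ σ hσ => ?_⟩
    set T := act W ι (Cc W e0 e1 a b σ) with hTdef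
    have hTT : T + T = 0 := by
      rw [hTdef, ← map_add, Cc_two h h01 h02 h12 a b σ, map_zero]
    have i0 : IsX (W.baseChange Ω) (algebraMap k Ω e0) T ↔ ¬ Fl a σ := by
      rw [hTdef, act_isX, Cc_isX0 h h01 h02 h12]
    have i1 : IsX (W.baseChange Ω) (algebraMap k Ω e1) T ↔ ¬ Fl b σ := by
      rw [hTdef, act_isX, Cc_isX1 h h01 h02 h12]
    have i2 : IsX (W.baseChange Ω) (algebraMap k Ω e2) T ↔ (Fl a σ ↔ Fl b σ) := by
      rw [hTdef, act_isX, Cc_isX2 h h01 h02 h12]
    obtain ⟨sa, sa'⟩ := sgn hs σ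
    obtain ⟨sb, sb'⟩ := sgn ht σ
    have key : act W (τ.toAlgHom.restrictScalars k) P = P + T := by
      have hτ : ∀ z : Ω, (τ.toAlgHom.restrictScalars k) z = τ z := fun z => rfl
      refine move h h01 h02 h12 (τ.toAlgHom.restrictScalars k) hn hY hTT ?_ ?_ ?_ P hP
      · rw [g0, hτ, map_mul, τ.commutes, hσ, i0]
        refine ⟨fun h' => by rw [sa h'], fun h' => by rw [sa' (not_not.1 h'), map_neg, neg_mul]⟩
      · rw [g1, hτ, map_mul, τ.commutes, hσ, i1]
        refine ⟨fun h' => by rw [sb h'], fun h' => by rw [sb' (not_not.1 h'), map_neg, neg_mul]⟩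
      · rw [g2, hτ, map_mul, map_mul, τ.commutes, hσ, hσ, i2]
        by_cases fa : Fl a σ <;> by_cases fb : Fl b σ
        · refine ⟨fun _ => by rw [sa' fa, sb' fb, map_neg, map_neg, neg_mul_neg], fun h' => ?_⟩
          exact absurd ⟨fun _ => fb, fun _ => fa⟩ h'
        · refine ⟨fun h' => absurd (h'.1 fa) fb, fun _ => ?_⟩
          rw [sa' fa, sb fb, map_neg, neg_mul, neg_mul]
        · refine ⟨fun h' => absurd (h'.2 fb) fa, fun _ => ?_⟩
          rw [sa fa, sb' fb, map_neg, mul_neg, neg_mul]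
        · refine ⟨fun _ => by rw [sa fa, sb fb], fun h' => ?_⟩
          exact absurd ⟨fun h'' => absurd h'' fa, fun h'' => absurd h'' fb⟩ h'
    rw [key, add_sub_cancel_left]

end Pool.Agent.Run7.h374.XK
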