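import Pool.Agent.Run7.h135.XK.Stm

set_option autoImplicit false

open Finset

namespace Pool.Agent.Run7.h374.XK

open Run7.h135.XK

section

variable {k : Type} [Field k] [Fintype k] [DecidableEq k]

omit [Fintype k] [DecidableEq k] in
lemma ringChar_ne (h2 : (2 : k) ≠ 0) : ringChar k ≠ 2 := by
  intro h
  apply h2
  have := ringChar.Nat.cast_ringChar (R := k)
  rw [h] at this
  exact_mod_cast this

/-- the sum of the product of two shifted quadratic characters -/
lemma sum_two (h2 : (2 : k) ≠ 0) {e0 e1 : k} (h : e0 ≠ e1) :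
    ∑ x : k, quadraticChar k (x - e0) * quadraticChar k (x - e1) = -1 := by
  have hc := ringChar_ne h2
  have h0 : ∑ x : k, quadraticChar k (x - e0) * quadraticChar k (x - e1)
      = ∑ x : k, quadraticChar k x * quadraticChar k (x + (e0 - e1)) := by
    refine (Fintype.sum_equiv (Equiv.subRight e0) _ _ ?_)
    intro x
    simp [Equiv.subRight]
  rw [h0]
  set c := e0 - e1 with hcdef
  have hc0 : c ≠ 0 := sub_ne_zero.mpr h
  have h1 : ∑ x : k, quadraticChar k x * quadraticChar k (x + c)
      = ∑ x ∈ univ.erase (0 : k), quadraticChar k (1 + c / x) := by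
    rw [← Finset.add_sum_erase _ _ (Finset.mem_univ (0 : k))]
    rw [quadraticChar_zero, zero_mul, zero_add]
    apply Finset.sum_congr rfl
    intro x hx
    have hx0 : x ≠ 0 := Finset.ne_of_mem_erase hx
    have : x * (x + c) = x ^ 2 * (1 + c / x) := by field_simp
    rw [← map_mul, this, map_mul, quadraticChar_sq_one' hx0, one_mul]
  rw [h1]
  have h3 : ∑ x ∈ univ.erase (0 : k), quadraticChar k (1 + c / x)
      = ∑ y ∈ univ.erase (1 : k), quadraticChar k y := by
    refine Finset.sum_bij' (fun x _ => 1 + c / x) (fun y _ => c / (y - 1)) ?_ ?_ ?_ ?_ ?_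
    · intro x hx
      have hx0 : x ≠ 0 := Finset.ne_of_mem_erase hx
      simp [hx0, hc0]
    · intro y hy
      have hy0 : y - 1 ≠ 0 := sub_ne_zero.mpr (Finset.ne_of_mem_erase hy)
      simp [hy0, hc0]
    · intro x hx
      have hx0 : x ≠ 0 := Finset.ne_of_mem_erase hx
      change c / (1 + c / x - 1) = x
      rw [add_sub_cancel_left]
      field_simp
    · intro y hy
      have hy0 : y - 1 ≠ 0 := sub_ne_zero.mpr (Finset.ne_of_mem_erase hy)
      change 1 + c / (c / (y - 1)) = y
      field_simp
      ring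
    · intro x _
      rfl
  rw [h3]
  have h4 := quadraticChar_sum_zero hc
  rw [← Finset.add_sum_erase _ _ (Finset.mem_univ (1 : k)), map_one] at h4
  linarith

lemma sum_one (h2 : (2 : k) ≠ 0) (e : k) : ∑ x : k, quadraticChar k (x - e) = 0 := by
  rw [← quadraticChar_sum_zero (ringChar_ne h2)]
  exact Fintype.sum_equiv (Equiv.subRight e) _ _ fun x => rfl

lemma rep (a z : k) (ha : a ≠ 0) (h : 1 + quadraticChar k a * quadraticChar k z ≠ 0) :
    ∃ u : k, z = a * u ^ 2 := by
  by_cases hz : z = 0
  · exact ⟨0, by rw [hz]; ring⟩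
  · have h1 : quadraticChar k (a * z) = 1 := by
      rw [map_mul]
      rcases quadraticChar_dichotomy ha with h3 | h3 <;>
        rcases quadraticChar_dichotomy hz with h4 | h4 <;> rw [h3, h4] at h <;> rw [h3, h4] <;>
        simp at h ⊢
    rw [quadraticChar_one_iff_isSquare (mul_ne_zero ha hz)] at h1
    obtain ⟨t, ht⟩ := h1
    refine ⟨t / a, ?_⟩
    field_simp
    linear_combination ht

end

theorem t_FF : S_FF := by
  classical
  intro k _ _ e0 e1 e2 a b h2 h01 h02 h12 ha hb
  have : Fintype k := Fintype.ofFinite k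
  by_cases hsq : IsSquare a ∧ IsSquare b
  · exact Or.inl hsq
  right
  by_contra hno
  have hab : a * b ≠ 0 := mul_ne_zero ha hb
  have hzero : ∀ x : k, (1 + quadraticChar k a * quadraticChar k (x - e0)) *
      (1 + quadraticChar k b * quadraticChar k (x - e1)) *
      (1 + quadraticChar k (a * b) * quadraticChar k (x - e2)) = 0 := by
    intro x
    by_contra hx
    have h3 := right_ne_zero_of_mul hx
    have h1 := left_ne_zero_of_mul (left_ne_zero_of_mul hx)
    have h2' := right_ne_zero_of_mul (left_ne_zero_of_mul hx)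
    obtain ⟨u, hu⟩ := rep a _ ha h1
    obtain ⟨v, hv⟩ := rep b _ hb h2'
    obtain ⟨w, hw⟩ := rep (a * b) _ hab h3
    exact hno ⟨x, u, v, w, hu, hv, hw⟩
  set s0 := quadraticChar k a with hs0
  set s1 := quadraticChar k b with hs1
  have hs2 : quadraticChar k (a * b) = s0 * s1 := map_mul _ _ _
  have hsum : ∑ x : k, (1 + s0 * quadraticChar k (x - e0)) * (1 + s1 * quadraticChar k (x - e1)) *
      (1 + s0 * s1 * quadraticChar k (x - e2)) = 0 := by
    apply Finset.sum_eq_zero
    intro x _
    rw [← hs2]
    exact hzero x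
  have hss0 : s0 ^ 2 = 1 := by rw [hs0]; exact quadraticChar_sq_one ha
  have hss1 : s1 ^ 2 = 1 := by rw [hs1]; exact quadraticChar_sq_one hb
  have hexp : ∑ x : k, (1 + s0 * quadraticChar k (x - e0)) * (1 + s1 * quadraticChar k (x - e1)) *
      (1 + s0 * s1 * quadraticChar k (x - e2)) =
      ∑ x : k, (1 + quadraticChar k ((x - e0) * (x - e1) * (x - e2)))
      + s0 * ∑ x : k, quadraticChar k (x - e0) + s1 * ∑ x : k, quadraticChar k (x - e1)
      + s0 * s1 * ∑ x : k, quadraticChar k (x - e2)
      + s0 * s1 * ∑ x : k, quadraticChar k (x - e0) * quadraticChar k (x - e1)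
      + s1 * ∑ x : k, quadraticChar k (x - e0) * quadraticChar k (x - e2)
      + s0 * ∑ x : k, quadraticChar k (x - e1) * quadraticChar k (x - e2) := by
    simp only [Finset.mul_sum, ← Finset.sum_add_distrib]
    apply Finset.sum_congr rfl
    intro x _
    rw [map_mul, map_mul]
    generalize quadraticChar k (x - e0) = c0
    generalize quadraticChar k (x - e1) = c1
    generalize quadraticChar k (x - e2) = c2
    linear_combination (s1 * c0 * c2 + s1 ^ 2 * c0 * c1 * c2) * hss0 +
      (s0 * c1 * c2 + c0 * c1 * c2) * hss1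
  rw [sum_one h2, sum_one h2, sum_one h2, sum_two h2 h01, sum_two h2 h02, sum_two h2 h12] at hexp
  rw [hsum] at hexp
  have hge : 3 ≤ ∑ x : k, (1 + quadraticChar k ((x - e0) * (x - e1) * (x - e2))) := by
    have hnn : ∀ z : k, 0 ≤ 1 + quadraticChar k z := by
      intro z
      by_cases hz : z = 0
      · rw [hz, quadraticChar_zero]; norm_num
      · rcases quadraticChar_dichotomy hz with h | h <;> rw [h] <;> norm_num
    have hsub : ∑ x ∈ ({e0, e1, e2} : Finset k),
        (1 + quadraticChar k ((x - e0) * (x - e1) * (x - e2))) = 3 := by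
      rw [Finset.sum_insert (by simp [h01, h02]), Finset.sum_insert (by simp [h12]),
        Finset.sum_singleton]
      simp
    rw [← hsub]
    exact Finset.sum_le_sum_of_subset_of_nonneg (Finset.subset_univ _) fun x _ _ => hnn _
  have hcase : s0 * s1 + s1 + s0 = -1 := by
    rcases quadraticChar_dichotomy ha with h3 | h3 <;>
      rcases quadraticChar_dichotomy hb with h4 | h4
    · exact absurd ⟨(quadraticChar_one_iff_isSquare ha).1 h3,
        (quadraticChar_one_iff_isSquare hb).1 h4⟩ hsq
    all_goals
      rw [hs0, hs1, h3, h4]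
      norm_num
  linarith

end Pool.Agent.Run7.h374.XK
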