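import Pool.Agent.Run7.h741.XK.U23

/-!
# Project XK: the piece UP
-/

set_option autoImplicit false

namespace Pool.Agent.Run7.h374.XK

open Run7.h135.XK

lemma lift_quo {p : ℕ} [hp : Fact p.Prime] (hp2 : p ≠ 2) {c d : ℤ} (hd : ¬ (p : ℤ) ∣ d)
    (hc : c = 0 ∨ ¬ (p : ℤ) ∣ c) {u : ZMod p} (h : (c : ZMod p) = d * u ^ 2) :
    ∃ s : ℚ_[p], (c : ℚ_[p]) = d * s ^ 2 := by
  rcases hc with rfl | hc
  · exact ⟨0, by simp⟩
  · have hsq : IsSquare ((c * d : ℤ) : ZMod p) := by
      refine ⟨d * u, ?_⟩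
      push_cast
      rw [h]
      ring
    have hcd : ¬ (p : ℤ) ∣ c * d := by
      intro h1
      rcases (Nat.prime_iff_prime_int.1 hp.out).dvd_or_dvd h1 with h2 | h2
      · exact hc h2
      · exact hd h2
    obtain ⟨s, hs⟩ := Run7.h741.XK.padic_sq hp2 hcd hsq
    have hd0 : d ≠ 0 := by
      rintro rfl
      exact hd (dvd_zero _)
    have hd' : (d : ℚ_[p]) ≠ 0 := by exact_mod_cast hd0
    push_cast at hs
    refine ⟨s / d, ?_⟩
    field_simp
    linear_combination hs

theorem t_UP (hFF : S_FF) : S_UP := by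
  intro p hp hp30 a b ha hb
  have hcop : ∀ m : ℕ, m ∣ 900 → ¬ (p : ℤ) ∣ (m : ℤ) := by
    intro m hm h
    apply hp30
    have h1 : p ∣ m := by exact_mod_cast h
    have h2 : p ∣ 30 ^ 2 := (h1.trans hm).trans (by norm_num)
    exact hp.out.dvd_of_dvd_pow h2
  have h9 : ¬ (p : ℤ) ∣ 9 := by exact_mod_cast hcop 9 (by norm_num)
  have h25 : ¬ (p : ℤ) ∣ 25 := by exact_mod_cast hcop 25 (by norm_num)
  have h2 : ¬ (p : ℤ) ∣ 2 := by exact_mod_cast hcop 2 (by norm_num)
  have h16 : ¬ (p : ℤ) ∣ 16 := by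
    intro h
    have h3 : (p : ℤ) ∣ 2 ^ 4 := by norm_num; exact h
    exact h2 ((Nat.prime_iff_prime_int.1 hp.out).dvd_of_dvd_pow h3)
  have hp2 : p ≠ 2 := by
    rintro rfl
    exact h2 (by norm_num)
  have hz : ∀ m : ℤ, ¬ (p : ℤ) ∣ m → (m : ZMod p) ≠ 0 := by
    intro m hm h
    exact hm ((ZMod.intCast_zmod_eq_zero_iff_dvd m p).1 h)
  have z9 : (9 : ZMod p) ≠ 0 := by
    have := hz 9 h9
    exact_mod_cast this
  have z25 : (25 : ZMod p) ≠ 0 := by
    have := hz 25 h25
    exact_mod_cast this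
  have z16 : (16 : ZMod p) ≠ 0 := by
    have := hz 16 h16
    exact_mod_cast this
  have z2 : (2 : ZMod p) ≠ 0 := by
    have := hz 2 h2
    exact_mod_cast this
  have key := hFF (ZMod p) 0 9 25 (a : ZMod p) (b : ZMod p) z2 z9.symm z25.symm
    (by
      intro h
      apply z16
      linear_combination -h) (hz a ha) (hz b hb)
  rcases key with ⟨hsa, hsb⟩ | ⟨x, u, v, w, hu, hv, hw⟩
  · exact Or.inl ⟨Run7.h741.XK.padic_sq hp2 ha hsa, Run7.h741.XK.padic_sq hp2 hb hsb⟩
  · right
    have hX : ∃ X : ℤ, (X : ZMod p) = x ∧ (X - 0 = 0 ∨ ¬ (p : ℤ) ∣ X - 0) ∧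
        (X - 9 = 0 ∨ ¬ (p : ℤ) ∣ X - 9) ∧ (X - 25 = 0 ∨ ¬ (p : ℤ) ∣ X - 25) := by
      by_cases hx0 : x = 0
      · refine ⟨0, by rw [hx0]; norm_num, Or.inl (by norm_num), Or.inr ?_, Or.inr ?_⟩
        · rw [zero_sub, dvd_neg]; exact h9
        · rw [zero_sub, dvd_neg]; exact h25
      by_cases hx9 : x = 9
      · refine ⟨9, by rw [hx9]; norm_num, Or.inr (by rw [sub_zero]; exact h9), Or.inl (by norm_num), Or.inr ?_⟩
        have : (9 - 25 : ℤ) = -16 := by norm_num
        rw [this, dvd_neg]; exact h16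
      by_cases hx25 : x = 25
      · refine ⟨25, by rw [hx25]; norm_num, Or.inr (by rw [sub_zero]; exact h25), Or.inr ?_, Or.inl (by norm_num)⟩
        have : (25 - 9 : ℤ) = 16 := by norm_num
        rw [this]; exact h16
      · obtain ⟨X, hX⟩ := ZMod.intCast_surjective x
        refine ⟨X, hX, Or.inr ?_, Or.inr ?_, Or.inr ?_⟩
        · intro h
          apply hx0
          have := (ZMod.intCast_zmod_eq_zero_iff_dvd _ p).2 h
          push_cast at this
          rw [← hX]
          linear_combination this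
        · intro h
          apply hx9
          have := (ZMod.intCast_zmod_eq_zero_iff_dvd _ p).2 h
          push_cast at this
          rw [← hX]
          linear_combination this
        · intro h
          apply hx25
          have := (ZMod.intCast_zmod_eq_zero_iff_dvd _ p).2 h
          push_cast at this
          rw [← hX]
          linear_combination this
    obtain ⟨X, hXx, c0, c1, c2⟩ := hX
    have hab : ¬ (p : ℤ) ∣ a * b := by
      intro h1
      rcases (Nat.prime_iff_prime_int.1 hp.out).dvd_or_dvd h1 with h2 | h2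
      · exact ha h2
      · exact hb h2
    obtain ⟨u', hu'⟩ := lift_quo hp2 (c := X - 0) (d := a) (u := u) ha c0 (by
      push_cast
      rw [hXx]
      exact hu)
    obtain ⟨v', hv'⟩ := lift_quo hp2 (c := X - 9) (d := b) (u := v) hb c1 (by
      push_cast
      rw [hXx]
      exact hv)
    obtain ⟨w', hw'⟩ := lift_quo hp2 (c := X - 25) (d := a * b) (u := w) hab c2 (by
      push_cast
      rw [hXx]
      exact hw)
    refine ⟨X, u', v', w', ?_, ?_, ?_⟩
    · push_cast at hu'
      linear_combination hu'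
    · push_cast at hv'
      linear_combination hv'
    · push_cast at hw'
      linear_combination hw'

end Pool.Agent.Run7.h374.XK
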